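import Pool.Agent.N334.CN.Stm

/-!
# Project CN (helper334), leaf BB: seven inequalities for the second lattice
-/

set_option autoImplicit false

namespace Pool.Agent.N691.CN

open Pool.Agent.N334.CN

/-- a lattice vector -/
noncomputable def DD (r : V) (i j k : ℤ) : V :=
  fun n => (i : ℝ) * uB r n + (j : ℝ) * vB r n + (k : ℝ) * qB r n

lemma DD0 (r : V) (i j k : ℤ) : DD r i j k 0 = (i : ℝ) * -(1 + 3 / 4 * (r 0 + r 1) - r 2 / 2) +
    (j : ℝ) * (-(1 + r 2) + 3 / 2 * (1 + r 1)) +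
    (k : ℝ) * (-(1 / 2) + r 0 / 4 + r 2 / 2 - 3 * r 1 / 4) := by
  simp [DD, uB, vB, qB, cB]

lemma DD1 (r : V) (i j k : ℤ) : DD r i j k 1 = (i : ℝ) * (1 + 3 / 4 * (r 0 + r 1) - r 2 / 2) +
    (j : ℝ) * -(3 / 2 * (1 + r 1)) + (k : ℝ) * (1 / 2 + r 1) := by
  simp [DD, uB, vB, qB, cB]

lemma DD2 (r : V) (i j k : ℤ) : DD r i j k 2 = (j : ℝ) * (1 + r 2) +
    (k : ℝ) * (-(1 / 2) - r 0 / 4 - r 2 / 2 - r 1 / 4) := by
  simp [DD, uB, vB, qB, cB]

lemma DDsum (r : V) (i j k : ℤ) : -(DD r i j k 0 + DD r i j k 1 + DD r i j k 2) = (k : ℝ) / 2 := by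
  rw [DD0, DD1, DD2]
  ring

lemma DDneg (r : V) (i j k : ℤ) : DD r (-i) (-j) (-k) = -DD r i j k := by
  funext n
  simp only [DD, Pi.neg_apply]
  push_cast
  ring

/-- the case `k ≥ 0` -/
lemma sepk (r : V) (h0 : ∀ n, 0 ≤ r n) (h1 : ∀ n, r n ≤ 1) (h21 : r 2 ≤ r 1) (h20 : r 2 ≤ r 0)
    (i j k : ℤ) (hk : 0 ≤ k) (hne : ¬ (i = 0 ∧ j = 0 ∧ k = 0)) : Pool.Agent.N334.CN.Sep r (DD r i j k) := by
  have a0 := h0 0
  have b0 := h0 1
  have e0 := h0 2
  have a1 := h1 0
  have b1 := h1 1
  have e1 := h1 2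
  have hc : 0 ≤ 1 + 3 / 4 * (r 0 + r 1) - r 2 / 2 := by linarith
  rw [Pool.Agent.N334.CN.Sep, DDsum]
  have hkr : (0 : ℝ) ≤ k := by exact_mod_cast hk
  refine ⟨by positivity, ?_⟩
  rcases le_or_gt 2 k with hk2 | hk2
  · left
    have : (2 : ℝ) ≤ k := by exact_mod_cast hk2
    linarith
  right
  obtain rfl | rfl : k = 0 ∨ k = 1 := by omega
  · -- `k = 0`
    rcases lt_trichotomy j 0 with hj | hj | hj
    · have hj' : (j : ℝ) ≤ -1 := by exact_mod_cast (by omega : j ≤ -1)
      refine ⟨2, Or.inr ?_⟩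
      rw [DD2]
      push_cast
      nlinarith
    · subst hj
      have hi : i ≠ 0 := fun h => hne ⟨h, rfl, rfl⟩
      rcases le_or_gt (r 1) (r 0) with hab | hab
      · rcases lt_or_gt_of_ne hi with hi' | hi'
        · have hi'' : (i : ℝ) ≤ -1 := by exact_mod_cast (by omega : i ≤ -1)
          refine ⟨1, Or.inr ?_⟩
          rw [DD1]
          push_cast
          nlinarith
        · have hi'' : (1 : ℝ) ≤ i := by exact_mod_cast (by omega : 1 ≤ i)
          refine ⟨1, Or.inl ?_⟩
          rw [DD1]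
          push_cast
          nlinarith
      · rcases lt_or_gt_of_ne hi with hi' | hi'
        · have hi'' : (i : ℝ) ≤ -1 := by exact_mod_cast (by omega : i ≤ -1)
          refine ⟨0, Or.inl ?_⟩
          rw [DD0]
          push_cast
          nlinarith
        · have hi'' : (1 : ℝ) ≤ i := by exact_mod_cast (by omega : 1 ≤ i)
          refine ⟨0, Or.inr ?_⟩
          rw [DD0]
          push_cast
          nlinarith
    · have hj' : (1 : ℝ) ≤ j := by exact_mod_cast (by omega : 1 ≤ j)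
      refine ⟨2, Or.inl ?_⟩
      rw [DD2]
      push_cast
      nlinarith
  · -- `k = 1`
    rcases le_or_gt j (-1) with hj | hj
    · have hj' : (j : ℝ) ≤ -1 := by exact_mod_cast hj
      refine ⟨2, Or.inr ?_⟩
      rw [DD2]
      push_cast
      nlinarith
    rcases le_or_gt 2 j with hj2 | hj2
    · have hj' : (2 : ℝ) ≤ j := by exact_mod_cast hj2
      refine ⟨2, Or.inl ?_⟩
      rw [DD2]
      push_cast
      nlinarith
    obtain rfl | rfl : j = 0 ∨ j = 1 := by omega
    · rcases le_or_gt 0 i with hi | hi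
      · have hi' : (0 : ℝ) ≤ i := by exact_mod_cast hi
        have h5 := mul_nonneg hi' hc
        refine ⟨1, Or.inl ?_⟩
        rw [DD1]
        push_cast
        linarith
      · have hi' : (0 : ℝ) ≤ -1 - i := by
          have : (i : ℝ) ≤ -1 := by exact_mod_cast (by omega : i ≤ -1)
          linarith
        have h5 := mul_nonneg hi' hc
        refine ⟨0, Or.inl ?_⟩
        rw [DD0]
        push_cast
        linarith
    · rcases le_or_gt i 0 with hi | hi
      · have hi' : (0 : ℝ) ≤ -i := by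
          have : (i : ℝ) ≤ 0 := by exact_mod_cast hi
          linarith
        have h5 := mul_nonneg hi' hc
        refine ⟨1, Or.inr ?_⟩
        rw [DD1]
        push_cast
        linarith
      · have hi' : (0 : ℝ) ≤ i - 1 := by
          have : (1 : ℝ) ≤ i := by exact_mod_cast (by omega : 1 ≤ i)
          linarith
        have h5 := mul_nonneg hi' hc
        refine ⟨0, Or.inr ?_⟩
        rw [DD0]
        push_cast
        linarith

/-- BB -/
theorem t_BB : Pool.Agent.N334.CN.S_BB := by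
  intro r h0 h1 h21 h20 i j k hne
  change Out r (DD r i j k)
  rcases le_or_gt 0 k with hk | hk
  · exact Or.inl (sepk r h0 h1 h21 h20 i j k hk hne)
  · refine Or.inr ?_
    rw [← DDneg]
    exact sepk r h0 h1 h21 h20 (-i) (-j) (-k) (by omega) (by
      rintro ⟨ha, hb, hc⟩
      exact hne ⟨by omega, by omega, by omega⟩)


end Pool.Agent.N691.CN
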